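import Mathlib

/-!
# MP_e9ad42_co, Q1: every {P4 + P1, C4}-free graph has a clique whose deletion leaves a chordal graph

If `v0 ... v4` is an induced 5-cycle, every other vertex is adjacent to all five, or to three
consecutive, or to two consecutive ones of its vertices. Two consecutive classes of the last kind
are empty; the clique consists of the vertices adjacent to all five and of the twins of the vertex
between these classes. If there is no induced 5-cycle but an induced 6-cycle, then the graph is a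
blown up 6-cycle together with universal vertices.
-/

set_option autoImplicit false

namespace Pool.Agent.Results.MP_e9ad42_co.DeletionClique

/-- `P₄ + P₁`: the path `0 1 2 3` and the isolated vertex `4` -/
def P4P1 : SimpleGraph (Fin 5) :=
  SimpleGraph.fromRel (fun x y => (x = 0 ∧ y = 1) ∨ (x = 1 ∧ y = 2) ∨ (x = 2 ∧ y = 3))

/-- `G` is chordal: it has no induced cycle of length at least four. -/
def IsChordal {V : Type} (G : SimpleGraph V) : Prop :=
  ∀ n, 4 ≤ n → ¬ Nonempty (SimpleGraph.cycleGraph n ↪g G)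

section
variable {V : Type} {G : SimpleGraph V}

/-- no induced `C₄`, in terms of vertices -/
def NoC4 (G : SimpleGraph V) : Prop := ∀ a b c d : V, a ≠ c → b ≠ d → G.Adj a b → G.Adj b c →
  G.Adj c d → G.Adj d a → G.Adj a c ∨ G.Adj b d

/-- no induced `P₄ + P₁`, in terms of vertices -/
def NoP (G : SimpleGraph V) : Prop := ∀ a b c d e : V, G.Adj a b → G.Adj b c → G.Adj c d →
  ¬ G.Adj a c → ¬ G.Adj a d → ¬ G.Adj b d → G.Adj e a ∨ G.Adj e b ∨ G.Adj e c ∨ G.Adj e d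

instance : DecidableRel P4P1.Adj := by
  unfold P4P1
  infer_instance

def mkEmb {n : ℕ} (H : SimpleGraph (Fin n)) (f : Fin n → V) (M : Fin n → Fin n → Bool)
    (hM : ∀ i j, H.Adj i j ↔ M i j = true) (hf : ∀ i j, i ≠ j → f i ≠ f j)
    (hG : ∀ i j, G.Adj (f i) (f j) ↔ M i j = true) : H ↪g G :=
  ⟨⟨f, fun i j h => by
    by_contra hne
    exact hf i j hne h⟩, by
    intro i j
    rw [hM]
    exact hG i j⟩

lemma noC4_of (h : ¬ Nonempty (SimpleGraph.cycleGraph 4 ↪g G)) : NoC4 G := by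
  intro a b c d hac hbd hab hbc hcd hda
  by_contra hcon
  push Not at hcon
  obtain ⟨h1, h2⟩ := hcon
  apply h
  clear h
  have e1 := hab.ne
  have e2 := hbc.ne
  have e3 := hcd.ne
  have e4 := hda.ne
  have h1' : ¬ G.Adj c a := fun h => h1 h.symm
  have h2' : ¬ G.Adj d b := fun h => h2 h.symm
  refine ⟨mkEmb _ ![a, b, c, d] ![![false, true, false, true], ![true, false, true, false],
    ![false, true, false, true], ![true, false, true, false]] (by decide) ?_ ?_⟩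
  · intro i j hij
    fin_cases i <;> fin_cases j <;>
      simp [hac, hbd, hac.symm, hbd.symm, e1, e2, e3, e4, e1.symm, e2.symm, e3.symm, e4.symm] at hij ⊢
  · intro i j
    fin_cases i <;> fin_cases j <;>
      simp [hab, hbc, hcd, hda, hab.symm, hbc.symm, hcd.symm, hda.symm, h1, h2, h1', h2']

lemma noP_of (h : ¬ Nonempty (P4P1 ↪g G)) : NoP G := by
  intro a b c d e hab hbc hcd hac had hbd
  by_contra hcon
  push Not at hcon
  obtain ⟨h1, h2, h3, h4⟩ := hcon
  apply h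
  clear h
  have e1 := hab.ne
  have e2 := hbc.ne
  have e3 := hcd.ne
  have e4 : a ≠ c := by
    rintro rfl
    exact had hcd
  have e5 : a ≠ d := by
    rintro rfl
    exact hac hcd.symm
  have e6 : b ≠ d := by
    rintro rfl
    exact had hab
  have e7 : e ≠ a := by
    rintro rfl
    exact h2 hab
  have e8 : e ≠ b := by
    rintro rfl
    exact h1 hab.symm
  have e9 : e ≠ c := by
    rintro rfl
    exact h4 hcd
  have e10 : e ≠ d := by
    rintro rfl
    exact h3 hcd.symm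
  have h1' : ¬ G.Adj a e := fun h => h1 h.symm
  have h2' : ¬ G.Adj b e := fun h => h2 h.symm
  have h3' : ¬ G.Adj c e := fun h => h3 h.symm
  have h4' : ¬ G.Adj d e := fun h => h4 h.symm
  have h5' : ¬ G.Adj c a := fun h => hac h.symm
  have h6' : ¬ G.Adj d a := fun h => had h.symm
  have h7' : ¬ G.Adj d b := fun h => hbd h.symm
  refine ⟨mkEmb _ ![a, b, c, d, e] ![![false, true, false, false, false],
    ![true, false, true, false, false], ![false, true, false, true, false],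
    ![false, false, true, false, false], ![false, false, false, false, false]] (by decide) ?_ ?_⟩
  · intro i j hij
    fin_cases i <;> fin_cases j <;>
      simp [e1, e2, e3, e4, e5, e6, e7, e8, e9, e10, e1.symm, e2.symm, e3.symm, e4.symm, e5.symm,
        e6.symm, e7.symm, e8.symm, e9.symm, e10.symm] at hij ⊢
  · intro i j
    fin_cases i <;> fin_cases j <;>
      simp [hab, hbc, hcd, hab.symm, hbc.symm, hcd.symm, h1, h2, h1', h2', h3, h3', h4, h4',
        h5', h6', h7', hac, had, hbd]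

lemma cls5 (A B C D E : Prop) (q1 : A → C → B) (q2 : B → D → C) (q3 : C → E → D) (q4 : D → A → E)
   (q5 : E → B → A) (r1 : A ∨ B ∨ C ∨ D) (r2 : B ∨ C ∨ D ∨ E) (r3 : C ∨ D ∨ E ∨ A) (r4 : D ∨ E ∨ A ∨ B)
   (r5 : E ∨ A ∨ B ∨ C) : (A ∧ B ∧ C ∧ D ∧ E) ∨ (B ∧ E ∧ ¬ C ∧ ¬ D ∧ A) ∨ (C ∧ A ∧ ¬ D ∧ ¬ E ∧ B) ∨
     (D ∧ B ∧ ¬ E ∧ ¬ A ∧ C) ∨ (E ∧ C ∧ ¬ A ∧ ¬ B ∧ D) ∨ (A ∧ D ∧ ¬ B ∧ ¬ C ∧ E) ∨
     (A ∧ B ∧ ¬ C ∧ ¬ D ∧ ¬ E) ∨ (B ∧ C ∧ ¬ D ∧ ¬ E ∧ ¬ A) ∨ (C ∧ D ∧ ¬ E ∧ ¬ A ∧ ¬ B) ∨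
     (D ∧ E ∧ ¬ A ∧ ¬ B ∧ ¬ C) ∨ (E ∧ A ∧ ¬ B ∧ ¬ C ∧ ¬ D) := by
  by_cases a : A <;> by_cases b : B <;> by_cases c : C <;> by_cases d : D <;> by_cases e : E <;>
    simp only [a, b, c, d, e, true_implies, imp_false, not_true_eq_false, not_false_eq_true,
      and_true, and_false, or_true, or_false] at *

/-- `a b c d e` is an induced 5-cycle -/
structure C5 (G : SimpleGraph V) (a b c d e : V) : Prop where
  ab : G.Adj a b
  bc : G.Adj b c
  cd : G.Adj c d
  de : G.Adj d e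
  ea : G.Adj e a
  ac : ¬ G.Adj a c
  ad : ¬ G.Adj a d
  bd : ¬ G.Adj b d
  be : ¬ G.Adj b e
  ce : ¬ G.Adj c e

lemma C5.rot {a b c d e : V} (h : C5 G a b c d e) : C5 G b c d e a :=
  ⟨h.bc, h.cd, h.de, h.ea, h.ab, h.bd, h.be, h.ce, fun h' => h.ac h'.symm, fun h' => h.ad h'.symm⟩

lemma C5.refl {a b c d e : V} (h : C5 G a b c d e) : C5 G e d c b a :=
  ⟨h.de.symm, h.cd.symm, h.bc.symm, h.ab.symm, h.ea.symm, fun h' => h.ce h'.symm,
    fun h' => h.be h'.symm, fun h' => h.bd h'.symm, fun h' => h.ad h'.symm, fun h' => h.ac h'.symm⟩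

/-- `x` is a clone of the first vertex -/
def TA (G : SimpleGraph V) (a b c d e x : V) : Prop :=
  G.Adj x b ∧ G.Adj x e ∧ ¬ G.Adj x c ∧ ¬ G.Adj x d ∧ (x = a ∨ G.Adj x a)

/-- `x` is adjacent to exactly the first two vertices -/
def TB (G : SimpleGraph V) (a b c d e x : V) : Prop :=
  G.Adj x a ∧ G.Adj x b ∧ ¬ G.Adj x c ∧ ¬ G.Adj x d ∧ ¬ G.Adj x e

/-- `x` is adjacent to all five vertices -/
def TU (G : SimpleGraph V) (a b c d e x : V) : Prop :=
  G.Adj x a ∧ G.Adj x b ∧ G.Adj x c ∧ G.Adj x d ∧ G.Adj x e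

lemma classify (h4 : NoC4 G) (hP : NoP G) {a b c d e : V} (h : C5 G a b c d e) (x : V) :
    TU G a b c d e x ∨ TA G a b c d e x ∨ TA G b c d e a x ∨ TA G c d e a b x ∨
      TA G d e a b c x ∨ TA G e a b c d x ∨ TB G a b c d e x ∨ TB G b c d e a x ∨
      TB G c d e a b x ∨ TB G d e a b c x ∨ TB G e a b c d x := by
  obtain ⟨ab, bc, cd, de, ea, ac, ad, bd, be, ce⟩ := h
  by_cases xa : x = a
  · subst xa
    right; left
    exact ⟨ab, ea.symm, ac, ad, Or.inl rfl⟩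
  by_cases xb : x = b
  · subst xb
    right; right; left
    exact ⟨bc, ab.symm, bd, be, Or.inl rfl⟩
  by_cases xc : x = c
  · subst xc
    right; right; right; left
    exact ⟨cd, bc.symm, ce, fun h => ac h.symm, Or.inl rfl⟩
  by_cases xd : x = d
  · subst xd
    right; right; right; right; left
    exact ⟨de, cd.symm, fun h => ad h.symm, fun h => bd h.symm, Or.inl rfl⟩
  by_cases xe : x = e
  · subst xe
    right; right; right; right; right; left
    exact ⟨ea, de.symm, fun h => be h.symm, fun h => ce h.symm, Or.inl rfl⟩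
  have nac : a ≠ c := fun h => ad (h ▸ cd)
  have nbd : b ≠ d := fun h => be (h ▸ de)
  have nce : c ≠ e := fun h => ac ((h ▸ ea).symm)
  have nad : a ≠ d := fun h => ac (h ▸ cd.symm)
  have nbe : b ≠ e := fun h => bd (h ▸ de.symm)
  have q1 : G.Adj x a → G.Adj x c → G.Adj x b := fun h1 h2 =>
    (h4 x a b c xb nac h1 ab bc h2.symm).resolve_right ac
  have q2 : G.Adj x b → G.Adj x d → G.Adj x c := fun h1 h2 =>
    (h4 x b c d xc nbd h1 bc cd h2.symm).resolve_right bd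
  have q3 : G.Adj x c → G.Adj x e → G.Adj x d := fun h1 h2 =>
    (h4 x c d e xd nce h1 cd de h2.symm).resolve_right ce
  have q4 : G.Adj x d → G.Adj x a → G.Adj x e := fun h1 h2 =>
    (h4 x d e a xe nad.symm h1 de ea h2.symm).resolve_right (fun h => ad h.symm)
  have q5 : G.Adj x e → G.Adj x b → G.Adj x a := fun h1 h2 =>
    (h4 x e a b xa nbe.symm h1 ea ab h2.symm).resolve_right (fun h => be h.symm)
  have r1 := hP a b c d x ab bc cd ac ad bd
  have r2 := hP b c d e x bc cd de bd be ce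
  have r3 := hP c d e a x cd de ea ce (fun h => ac h.symm) (fun h => ad h.symm)
  have r4 := hP d e a b x de ea ab (fun h => ad h.symm) (fun h => bd h.symm) (fun h => be h.symm)
  have r5 := hP e a b c x ea ab bc (fun h => be h.symm) (fun h => ce h.symm) ac
  have h := cls5 _ _ _ _ _ q1 q2 q3 q4 q5 r1 r2 r3 r4 r5
  have h := cls5 _ _ _ _ _ q1 q2 q3 q4 q5 r1 r2 r3 r4 r5
  rcases h with k | k | k | k | k | k | k | k | k | k | k
  · exact Or.inl k
  · exact Or.inr (Or.inl ⟨k.1, k.2.1, k.2.2.1, k.2.2.2.1, Or.inr k.2.2.2.2⟩)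
  · exact Or.inr (Or.inr (Or.inl ⟨k.1, k.2.1, k.2.2.1, k.2.2.2.1, Or.inr k.2.2.2.2⟩))
  · exact Or.inr (Or.inr (Or.inr (Or.inl ⟨k.1, k.2.1, k.2.2.1, k.2.2.2.1, Or.inr k.2.2.2.2⟩)))
  · exact Or.inr (Or.inr (Or.inr (Or.inr
      (Or.inl ⟨k.1, k.2.1, k.2.2.1, k.2.2.2.1, Or.inr k.2.2.2.2⟩))))
  · exact Or.inr (Or.inr (Or.inr (Or.inr (Or.inr
      (Or.inl ⟨k.1, k.2.1, k.2.2.1, k.2.2.2.1, Or.inr k.2.2.2.2⟩)))))
  · exact Or.inr (Or.inr (Or.inr (Or.inr (Or.inr (Or.inr (Or.inl k))))))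
  · exact Or.inr (Or.inr (Or.inr (Or.inr (Or.inr (Or.inr (Or.inr (Or.inl k)))))))
  · exact Or.inr (Or.inr (Or.inr (Or.inr (Or.inr (Or.inr (Or.inr (Or.inr (Or.inl k))))))))
  · exact Or.inr (Or.inr (Or.inr (Or.inr (Or.inr (Or.inr (Or.inr (Or.inr (Or.inr (Or.inl k)))))))))
  · exact Or.inr (Or.inr (Or.inr (Or.inr (Or.inr (Or.inr (Or.inr (Or.inr (Or.inr (Or.inr k)))))))))

lemma A_clique (h4 : NoC4 G) {a b c d e : V} (h : C5 G a b c d e) {x y : V}
    (hx : TA G a b c d e x) (hy : TA G a b c d e y) (hne : x ≠ y) : G.Adj x y :=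
  (h4 x b y e hne (fun h' => h.bd (h' ▸ h.de.symm)) hx.1 hy.1.symm hy.2.1 hx.2.1.symm).resolve_right
    h.be

lemma U_clique (h4 : NoC4 G) {a b c d e : V} (h : C5 G a b c d e) {x y : V}
    (hx : TU G a b c d e x) (hy : TU G a b c d e y) (hne : x ≠ y) : G.Adj x y :=
  (h4 x a y c hne (fun h' => h.ad (h' ▸ h.cd)) hx.1 hy.1.symm hy.2.2.1 hx.2.2.1.symm).resolve_right
    h.ac

lemma UA (h4 : NoC4 G) {a b c d e : V} (h : C5 G a b c d e) {x y : V}
    (hx : TU G a b c d e x) (hy : TA G a b c d e y) : G.Adj x y :=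
  (h4 x b y e (fun h' => hy.2.2.1 (h' ▸ hx.2.2.1)) (fun h' => h.bd (h' ▸ h.de.symm)) hx.2.1
    hy.1.symm hy.2.1 hx.2.2.2.2.symm).resolve_right h.be

lemma TU_rot {a b c d e x : V} (hx : TU G a b c d e x) : TU G b c d e a x :=
  ⟨hx.2.1, hx.2.2.1, hx.2.2.2.1, hx.2.2.2.2, hx.1⟩

/-- `A₀` and `A₂` are anticomplete. -/
lemma A0A2 (h4 : NoC4 G) {a b c d e : V} (h : C5 G a b c d e) {x y : V}
    (hx : TA G a b c d e x) (hy : TA G c d e a b y) : ¬ G.Adj x y := by
  intro hxy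
  rcases h4 x y d e (fun h' => h.bd (h' ▸ hx.1.symm)) (fun h' => h.be (h' ▸ hy.2.1.symm)) hxy hy.1
    h.de hx.2.1.symm with h' | h'
  · exact hx.2.2.2.1 h'
  · exact hy.2.2.1 h'

/-- `A₀` and `B₀` are complete. -/
lemma A0B0 (hP : NoP G) {a b c d e : V} (h : C5 G a b c d e) {x y : V}
    (hx : TA G a b c d e x) (hy : TB G a b c d e y) : G.Adj x y := by
  by_contra hxy
  rcases hP c d e x y h.cd h.de hx.2.1.symm h.ce (fun h' => hx.2.2.1 h'.symm)
    (fun h' => hx.2.2.2.1 h'.symm) with h' | h' | h' | h'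
  · exact hy.2.2.1 h'
  · exact hy.2.2.2.1 h'
  · exact hy.2.2.2.2 h'
  · exact hxy h'.symm

/-- `A₀` and `B₄` are complete. -/
lemma A0B4 (hP : NoP G) {a b c d e : V} (h : C5 G a b c d e) {x y : V}
    (hx : TA G a b c d e x) (hy : TB G e a b c d y) : G.Adj x y := by
  by_contra hxy
  rcases hP x b c d y hx.1 h.bc h.cd hx.2.2.1 hx.2.2.2.1 h.bd with h' | h' | h' | h'
  · exact hxy h'.symm
  · exact hy.2.2.1 h'
  · exact hy.2.2.2.1 h'
  · exact hy.2.2.2.2 h'

/-- `A₀` and `B₂` are anticomplete. -/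
lemma A0B2 (h4 : NoC4 G) {a b c d e : V} (h : C5 G a b c d e) {x y : V}
    (hx : TA G a b c d e x) (hy : TB G c d e a b y) : ¬ G.Adj x y := by
  intro hxy
  rcases h4 x y c b (fun h' => h.ce (h' ▸ hx.2.1)) (fun h' => h.bd (h' ▸ hy.2.1)) hxy hy.1
    h.bc.symm hx.1.symm with h' | h'
  · exact hx.2.2.1 h'
  · exact hy.2.2.2.2 h'

/-- `B₀` and `B₁` are complete. -/
lemma B0B1 (hP : NoP G) {a b c d e : V} (h : C5 G a b c d e) {y z : V}
    (hy : TB G a b c d e y) (hz : TB G b c d e a z) : G.Adj y z := by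
  by_contra hyz
  rcases hP y a e d z hy.1 h.ea.symm h.de.symm hy.2.2.2.2 hy.2.2.2.1 h.ad with h' | h' | h' | h'
  · exact hyz h'.symm
  · exact hz.2.2.2.2 h'
  · exact hz.2.2.2.1 h'
  · exact hz.2.2.1 h'

/-- `B₀` and `B₂` are anticomplete. -/
lemma B0B2 (h4 : NoC4 G) {a b c d e : V} (h : C5 G a b c d e) {y z : V}
    (hy : TB G a b c d e y) (hz : TB G c d e a b z) : ¬ G.Adj y z := by
  intro hyz
  rcases h4 y z c b (fun h' => h.ac (h' ▸ hy.1).symm) (fun h' => h.bd (h' ▸ hz.2.1)) hyz hz.1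
    h.bc.symm hy.2.1.symm with h' | h'
  · exact hy.2.2.1 h'
  · exact hz.2.2.2.2 h'

/-- `B₀`, `B₂`, `B₃` are not all nonempty. -/
lemma B023 (h4 : NoC4 G) (hP : NoP G) {a b c d e : V} (h : C5 G a b c d e) {y z w : V}
    (hy : TB G a b c d e y) (hz : TB G c d e a b z) (hw : TB G d e a b c w) : False := by
  have hzw : G.Adj z w := B0B1 hP h.rot.rot hz hw
  have hyz : ¬ G.Adj y z := B0B2 h4 h hy hz
  have hwy : ¬ G.Adj w y := B0B2 h4 h.rot.rot.rot hw hy
  rcases hP c z w e y hz.1.symm hzw hw.2.1 (fun h' => hw.2.2.2.2 h'.symm) h.ce hz.2.2.1 with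
    h' | h' | h' | h'
  · exact hy.2.2.1 h'
  · exact hyz h'
  · exact hwy h'.symm
  · exact hy.2.2.2.2 h'

/-- `B₃` and `B₄` are empty -/
structure Good (G : SimpleGraph V) (a b c d e : V) : Prop where
  c5 : C5 G a b c d e
  b3 : ∀ x, ¬ TB G d e a b c x
  b4 : ∀ x, ¬ TB G e a b c d x

lemma Good.flip {a b c d e : V} (h : Good G a b c d e) : Good G d c b a e :=
  ⟨h.c5.refl.rot, fun x hx => h.b4 x ⟨hx.2.1, hx.1, hx.2.2.2.2, hx.2.2.2.1, hx.2.2.1⟩,
    fun x hx => h.b3 x ⟨hx.2.1, hx.1, hx.2.2.2.2, hx.2.2.2.1, hx.2.2.1⟩⟩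

/-- membership in the clique -/
def InK (G : SimpleGraph V) (a b c d e x : V) : Prop := TU G a b c d e x ∨ TA G e a b c d x

lemma InK.flip {a b c d e x : V} (h : InK G d c b a e x) : InK G a b c d e x := by
  rcases h with h | h
  · exact Or.inl ⟨h.2.2.2.1, h.2.2.1, h.2.1, h.1, h.2.2.2.2⟩
  · exact Or.inr ⟨h.2.1, h.1, h.2.2.2.1, h.2.2.1, h.2.2.2.2⟩

/-- Two consecutive classes of the second kind are empty. -/
lemma exists_good (h4 : NoC4 G) (hP : NoP G) {a b c d e : V} (h : C5 G a b c d e) :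
    ∃ a b c d e : V, Good G a b c d e := by
  have k0 := fun y z w => B023 h4 hP h (y := y) (z := z) (w := w)
  have k1 := fun y z w => B023 h4 hP h.rot (y := y) (z := z) (w := w)
  have k2 := fun y z w => B023 h4 hP h.rot.rot (y := y) (z := z) (w := w)
  have k3 := fun y z w => B023 h4 hP h.rot.rot.rot (y := y) (z := z) (w := w)
  have k4 := fun y z w => B023 h4 hP h.rot.rot.rot.rot (y := y) (z := z) (w := w)
  by_cases e0 : ∃ x, TB G a b c d e x
  · obtain ⟨y0, e0⟩ := e0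
    by_cases e2 : ∃ x, TB G c d e a b x
    · obtain ⟨y2, e2⟩ := e2
      -- 3 is empty; 4 must be empty
      have n3 : ∀ x, ¬ TB G d e a b c x := fun x hx => k0 _ _ _ e0 e2 hx
      refine ⟨a, b, c, d, e, h, n3, fun x hx => ?_⟩
      exact k2 _ _ _ e2 hx e0
    · push Not at e2
      by_cases e3 : ∃ x, TB G d e a b c x
      · obtain ⟨y3, e3⟩ := e3
        -- 1 must be empty
        have n1 : ∀ x, ¬ TB G b c d e a x := fun x hx => k3 _ _ _ e3 e0 hx
        exact ⟨d, e, a, b, c, h.rot.rot.rot, n1, e2⟩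
      · push Not at e3
        exact ⟨e, a, b, c, d, h.rot.rot.rot.rot, e2, e3⟩
  · push Not at e0
    by_cases e1 : ∃ x, TB G b c d e a x
    · obtain ⟨y1, e1⟩ := e1
      by_cases e4 : ∃ x, TB G e a b c d x
      · obtain ⟨y4, e4⟩ := e4
        have n3 : ∀ x, ¬ TB G d e a b c x := fun x hx => k1 _ _ _ e1 hx e4
        have n2 : ∀ x, ¬ TB G c d e a b x := fun x hx => k4 _ _ _ e4 e1 hx
        exact ⟨e, a, b, c, d, h.rot.rot.rot.rot, n2, n3⟩
      · push Not at e4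
        exact ⟨b, c, d, e, a, h.rot, e4, e0⟩
    · push Not at e1
      exact ⟨c, d, e, a, b, h.rot.rot, e0, e1⟩

lemma T3 {P Q : V → Prop} (hPc : ∀ x y, P x → P y → x ≠ y → G.Adj x y)
    (hQc : ∀ x y, Q x → Q y → x ≠ y → G.Adj x y) (hPQ : ∀ x y, P x → Q y → ¬ G.Adj x y)
    {x y z : V} (hx : P x ∨ Q x) (hy : P y ∨ Q y) (hz : P z ∨ Q z)
    (hxy : G.Adj x y) (hyz : G.Adj y z) (hxz : ¬ G.Adj x z) (hne : x ≠ z) : False := by
  rcases hx with hx | hx <;> rcases hy with hy | hy <;> rcases hz with hz | hz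
  · exact hxz (hPc x z hx hz hne)
  · exact hPQ y z hy hz hyz
  · exact hPQ x y hx hy hxy
  · exact hPQ x y hx hy hxy
  · exact hPQ y x hy hx hxy.symm
  · exact hPQ y x hy hx hxy.symm
  · exact hPQ z y hz hy hyz.symm
  · exact hxz (hQc x z hx hz hne)

lemma K_clique (h4 : NoC4 G) {a b c d e : V} (h : C5 G a b c d e) {x y : V}
    (hx : InK G a b c d e x) (hy : InK G a b c d e y) (hne : x ≠ y) : G.Adj x y := by
  have h' := h.rot.rot.rot.rot
  have tu : ∀ {x : V}, TU G a b c d e x → TU G e a b c d x := fun hx =>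
    TU_rot (TU_rot (TU_rot (TU_rot hx)))
  rcases hx with hx | hx <;> rcases hy with hy | hy
  · exact U_clique h4 h hx hy hne
  · exact UA h4 h' (tu hx) hy
  · exact (UA h4 h' (tu hy) hx).symm
  · exact A_clique h4 h' hx hy hne

lemma nbr_e (h4 : NoC4 G) (hP : NoP G) {a b c d e : V} (h : Good G a b c d e) {x : V}
    (hx : ¬ InK G a b c d e x) (hxe : G.Adj x e) : TA G a b c d e x ∨ TA G d e a b c x := by
  rcases classify h4 hP h.c5 x with k | k | k | k | k | k | k | k | k | k | k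
  · exact absurd (Or.inl k) hx
  · exact Or.inl k
  · exact absurd hxe k.2.2.2.1
  · exact absurd hxe k.2.2.1
  · exact Or.inr k
  · exact absurd (Or.inr k) hx
  · exact absurd hxe k.2.2.2.2
  · exact absurd hxe k.2.2.2.1
  · exact absurd hxe k.2.2.1
  · exact absurd k (h.b3 x)
  · exact absurd k (h.b4 x)

lemma non_e (h4 : NoC4 G) (hP : NoP G) {a b c d e : V} (h : Good G a b c d e) {x : V}
    (hx : ¬ InK G a b c d e x) (hxe : ¬ G.Adj x e) : TA G b c d e a x ∨ TA G c d e a b x ∨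
      TB G a b c d e x ∨ TB G b c d e a x ∨ TB G c d e a b x := by
  rcases classify h4 hP h.c5 x with k | k | k | k | k | k | k | k | k | k | k
  · exact absurd (Or.inl k) hx
  · exact absurd k.2.1 hxe
  · exact Or.inl k
  · exact Or.inr (Or.inl k)
  · exact absurd k.1 hxe
  · exact absurd (Or.inr k) hx
  · exact Or.inr (Or.inr (Or.inl k))
  · exact Or.inr (Or.inr (Or.inr (Or.inl k)))
  · exact Or.inr (Or.inr (Or.inr (Or.inr k)))
  · exact absurd k.2.1 hxe
  · exact absurd k.1 hxe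

lemma three_e (h4 : NoC4 G) (hP : NoP G) {a b c d e : V} (h : Good G a b c d e) {x y z : V}
    (hx : ¬ InK G a b c d e x) (hy : ¬ InK G a b c d e y) (hz : ¬ InK G a b c d e z)
    (hxe : G.Adj x e) (hye : G.Adj y e) (hze : G.Adj z e)
    (hxy : G.Adj x y) (hyz : G.Adj y z) (hxz : ¬ G.Adj x z) (hne : x ≠ z) : False :=
  T3 (P := TA G a b c d e) (Q := TA G d e a b c) (fun x y => A_clique h4 h.c5)
    (fun x y => A_clique h4 h.c5.rot.rot.rot)
    (fun x y hx hy h' => A0A2 h4 h.c5.rot.rot.rot hy hx h'.symm)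
    (nbr_e h4 hP h hx hxe) (nbr_e h4 hP h hy hye) (nbr_e h4 hP h hz hze) hxy hyz hxz hne

/-- nonneighbours of `e` adjacent to a vertex of `A₀` -/
lemma near0 (h4 : NoC4 G) (hP : NoP G) {a b c d e : V} (h : Good G a b c d e) {x z : V}
    (hx : ¬ InK G a b c d e x) (hxe : ¬ G.Adj x e) (hz : TA G a b c d e z) (hzx : G.Adj z x) :
    TA G b c d e a x ∨ TB G a b c d e x ∨ TB G b c d e a x := by
  rcases non_e h4 hP h hx hxe with k | k | k | k | k
  · exact Or.inl k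
  · exact absurd hzx (A0A2 h4 h.c5 hz k)
  · exact Or.inr (Or.inl k)
  · exact Or.inr (Or.inr k)
  · exact absurd hzx (A0B2 h4 h.c5 hz k)

/-- two nonadjacent nonneighbours of `e` adjacent to vertices of `A₀` -/
lemma pair0 (h4 : NoC4 G) (hP : NoP G) {a b c d e : V} (h : Good G a b c d e) {x y z w : V}
    (hx : ¬ InK G a b c d e x) (hxe : ¬ G.Adj x e) (hz : TA G a b c d e z) (hzx : G.Adj z x)
    (hy : ¬ InK G a b c d e y) (hye : ¬ G.Adj y e) (hw : TA G a b c d e w) (hwy : G.Adj w y)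
    (hne : x ≠ y) (hxy : ¬ G.Adj x y) :
    (TB G a b c d e x ∧ TB G a b c d e y) ∨ (TB G b c d e a x ∧ TB G b c d e a y) := by
  rcases near0 h4 hP h hx hxe hz hzx with k | k | k <;>
    rcases near0 h4 hP h hy hye hw hwy with l | l | l
  · exact absurd (A_clique h4 h.c5.rot k l hne) hxy
  · exact absurd (A0B4 hP h.c5.rot k l) hxy
  · exact absurd (A0B0 hP h.c5.rot k l) hxy
  · exact absurd (A0B4 hP h.c5.rot l k).symm hxy
  · exact Or.inl ⟨k, l⟩
  · exact absurd (B0B1 hP h.c5 k l) hxy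
  · exact absurd (A0B0 hP h.c5.rot l k).symm hxy
  · exact absurd (B0B1 hP h.c5 l k).symm hxy
  · exact Or.inr ⟨k, l⟩

lemma C5.ne {a b c d e : V} (h : C5 G a b c d e) : a ≠ c := fun h' => h.ad (h' ▸ h.cd)

/-- holes of length five whose first two vertices are in `A₀` -/
lemma hole5a (h4 : NoC4 G) (hP : NoP G) {a b c d e : V} (h : Good G a b c d e)
    {p0 p1 p2 p3 p4 : V} (hp : C5 G p0 p1 p2 p3 p4) (k1 : ¬ InK G a b c d e p1)
    (k2 : ¬ InK G a b c d e p2) (k4 : ¬ InK G a b c d e p4)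
    (e1 : G.Adj p1 e) (e2 : ¬ G.Adj p2 e) (e4 : ¬ G.Adj p4 e) (h0 : TA G a b c d e p0) : False := by
  have h1 : TA G a b c d e p1 := by
    rcases nbr_e h4 hP h k1 e1 with k | k
    · exact k
    · exact absurd hp.ab.symm (A0A2 h4 h.c5.rot.rot.rot k h0)
  have n24 : p2 ≠ p4 := hp.rot.rot.ne
  rcases pair0 h4 hP h k2 e2 h1 hp.bc k4 e4 h0 hp.ea.symm n24 hp.ce with ⟨k, l⟩ | ⟨k, l⟩
  · exact hp.ac (A0B0 hP h.c5 h0 k)
  · rcases hP p4 p0 p1 p2 d hp.ea hp.ab hp.bc (fun h' => hp.be h'.symm) (fun h' => hp.ce h'.symm)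
      hp.ac with h' | h' | h' | h'
    · exact l.2.2.1 h'.symm
    · exact h0.2.2.2.1 h'.symm
    · exact h1.2.2.2.1 h'.symm
    · exact k.2.2.1 h'.symm

lemma hole5b (h4 : NoC4 G) (hP : NoP G) {a b c d e : V} (h : Good G a b c d e)
    {p0 p1 p2 p3 p4 : V} (hp : C5 G p0 p1 p2 p3 p4) (k0 : ¬ InK G a b c d e p0)
    (k1 : ¬ InK G a b c d e p1) (k2 : ¬ InK G a b c d e p2) (k4 : ¬ InK G a b c d e p4)
    (e0 : G.Adj p0 e) (e1 : G.Adj p1 e) (e2 : ¬ G.Adj p2 e) (e4 : ¬ G.Adj p4 e) : False := by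
  rcases nbr_e h4 hP h k0 e0 with k | k
  · exact hole5a h4 hP h hp k1 k2 k4 e1 e2 e4 k
  · exact hole5a h4 hP h.flip hp (fun h' => k1 h'.flip) (fun h' => k2 h'.flip)
      (fun h' => k4 h'.flip) e1 e2 e4 ⟨k.2.1, k.1, k.2.2.2.1, k.2.2.1, k.2.2.2.2⟩

lemma e_inK {a b c d e : V} (h : C5 G a b c d e) : InK G a b c d e e :=
  Or.inr ⟨h.ea, h.de.symm, fun h' => h.be h'.symm, fun h' => h.ce h'.symm, Or.inl rfl⟩

lemma hole5 (h4 : NoC4 G) (hP : NoP G) {a b c d e : V} (h : Good G a b c d e)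
    {p0 p1 p2 p3 p4 : V} (hp : C5 G p0 p1 p2 p3 p4) (k0 : ¬ InK G a b c d e p0)
    (k1 : ¬ InK G a b c d e p1) (k2 : ¬ InK G a b c d e p2) (k3 : ¬ InK G a b c d e p3)
    (k4 : ¬ InK G a b c d e p4) : False := by
  have n : ∀ p, ¬ InK G a b c d e p → e ≠ p := fun p hp h' => hp (h' ▸ e_inK h.c5)
  have n0 := n _ k0
  have n1 := n _ k1
  have n2 := n _ k2
  have n3 := n _ k3
  have n4 := n _ k4
  rcases classify h4 hP hp e with k | k | k | k | k | k | k | k | k | k | k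
  · exact three_e h4 hP h k0 k1 k2 k.1.symm k.2.1.symm k.2.2.1.symm hp.ab hp.bc hp.ac hp.ne
  · exact three_e h4 hP h k4 k0 k1 k.2.1.symm (k.2.2.2.2.resolve_left n0).symm k.1.symm hp.ea hp.ab
      (fun h' => hp.be h'.symm) hp.rot.rot.rot.rot.ne
  · exact three_e h4 hP h k0 k1 k2 k.2.1.symm (k.2.2.2.2.resolve_left n1).symm k.1.symm hp.ab hp.bc
      hp.ac hp.ne
  · exact three_e h4 hP h k1 k2 k3 k.2.1.symm (k.2.2.2.2.resolve_left n2).symm k.1.symm hp.bc hp.cd
      hp.bd hp.rot.ne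
  · exact three_e h4 hP h k2 k3 k4 k.2.1.symm (k.2.2.2.2.resolve_left n3).symm k.1.symm hp.cd hp.de
      hp.ce hp.rot.rot.ne
  · exact three_e h4 hP h k3 k4 k0 k.2.1.symm (k.2.2.2.2.resolve_left n4).symm k.1.symm hp.de hp.ea
      (fun h' => hp.ad h'.symm) hp.rot.rot.rot.ne
  · exact hole5b h4 hP h hp k0 k1 k2 k4 k.1.symm k.2.1.symm (fun h' => k.2.2.1 h'.symm)
      (fun h' => k.2.2.2.2 h'.symm)
  · exact hole5b h4 hP h hp.rot k1 k2 k3 k0 k.1.symm k.2.1.symm (fun h' => k.2.2.1 h'.symm)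
      (fun h' => k.2.2.2.2 h'.symm)
  · exact hole5b h4 hP h hp.rot.rot k2 k3 k4 k1 k.1.symm k.2.1.symm (fun h' => k.2.2.1 h'.symm)
      (fun h' => k.2.2.2.2 h'.symm)
  · exact hole5b h4 hP h hp.rot.rot.rot k3 k4 k0 k2 k.1.symm k.2.1.symm
      (fun h' => k.2.2.1 h'.symm) (fun h' => k.2.2.2.2 h'.symm)
  · exact hole5b h4 hP h hp.rot.rot.rot.rot k4 k0 k1 k3 k.1.symm k.2.1.symm
      (fun h' => k.2.2.1 h'.symm) (fun h' => k.2.2.2.2 h'.symm)

/-- `p` is an induced cycle of length `n` -/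
def Cyc (G : SimpleGraph V) (n : ℕ) (p : Fin n → V) : Prop :=
  ∀ i j, G.Adj (p i) (p j) ↔ (SimpleGraph.cycleGraph n).Adj i j

lemma Cyc.rot6 {p : Fin 6 → V} (h : Cyc G 6 p) (k : Fin 6) : Cyc G 6 (fun i => p (k + i)) := by
  intro i j
  rw [h]
  revert i j k
  decide

lemma Cyc.inj6 {p : Fin 6 → V} (h : Cyc G 6 p) {i j : Fin 6} (hij : i ≠ j) : p i ≠ p j := by
  intro h'
  have key : ∀ i j : Fin 6, i ≠ j → ∃ k, (SimpleGraph.cycleGraph 6).Adj i k ∧
    ¬ (SimpleGraph.cycleGraph 6).Adj j k := by decide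
  obtain ⟨k, hk1, hk2⟩ := key i j hij
  rw [← h] at hk1 hk2
  rw [h'] at hk1
  exact hk2 hk1

lemma bool6a : ∀ s : Fin 6 → Bool, (∀ i, s i = true → s (i + 2) = true → s (i + 1) = true) →
    (∀ i, s i = true ∨ s (i + 1) = true ∨ s (i + 2) = true ∨ s (i + 3) = true) →
    (∃ i, s i = true ∧ s (i + 1) = true ∧ s (i + 2) = true) ∨
    (∃ i, s i = true ∧ s (i + 3) = true ∧ s (i + 1) = false ∧ s (i + 2) = false ∧
      s (i + 4) = false ∧ s (i + 5) = false) := by
  decide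

lemma bool6b : ∀ s : Fin 6 → Bool, (∀ i, s i = true → s (i + 2) = true → s (i + 1) = true) →
    (∀ i, s i = true ∨ s (i + 1) = true ∨ s (i + 2) = true ∨ s (i + 3) = true) →
    (∀ i, s i = true → s (i + 3) = true → s (i + 1) = true ∨ s (i + 2) = true) →
    (∀ i, s i = true) ∨
    (∃ i, s (i + 5) = true ∧ s i = true ∧ s (i + 1) = true ∧ s (i + 2) = false ∧
      s (i + 3) = false ∧ s (i + 4) = false) := by
  decide

lemma cyc6_gap (h4 : NoC4 G) {p : Fin 6 → V} (h : Cyc G 6 p) {x : V} (hx : ∀ i, x ≠ p i)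
    (i : Fin 6) (h1 : G.Adj x (p i)) (h2 : G.Adj x (p (i + 2))) : G.Adj x (p (i + 1)) := by
  have k1 : ∀ i : Fin 6, (SimpleGraph.cycleGraph 6).Adj i (i + 1) := by decide
  have k2 : ∀ i : Fin 6, (SimpleGraph.cycleGraph 6).Adj (i + 1) (i + 2) := by decide
  have k3 : ∀ i : Fin 6, ¬ (SimpleGraph.cycleGraph 6).Adj i (i + 2) := by decide
  have k4 : ∀ i : Fin 6, i ≠ i + 2 := by decide
  exact (h4 x (p i) (p (i + 1)) (p (i + 2)) (hx _) (h.inj6 (k4 i)) h1 ((h _ _).2 (k1 i))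
    ((h _ _).2 (k2 i)) h2.symm).resolve_right (fun h' => k3 i ((h _ _).1 h'))

lemma cyc6_win (hP : NoP G) {p : Fin 6 → V} (h : Cyc G 6 p) (x : V)
    (i : Fin 6) : G.Adj x (p i) ∨ G.Adj x (p (i + 1)) ∨ G.Adj x (p (i + 2)) ∨
      G.Adj x (p (i + 3)) := by
  have k1 : ∀ i : Fin 6, (SimpleGraph.cycleGraph 6).Adj i (i + 1) := by decide
  have k2 : ∀ i : Fin 6, (SimpleGraph.cycleGraph 6).Adj (i + 1) (i + 2) := by decide
  have k3 : ∀ i : Fin 6, (SimpleGraph.cycleGraph 6).Adj (i + 2) (i + 3) := by decide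
  have k4 : ∀ i : Fin 6, ¬ (SimpleGraph.cycleGraph 6).Adj i (i + 2) := by decide
  have k5 : ∀ i : Fin 6, ¬ (SimpleGraph.cycleGraph 6).Adj i (i + 3) := by decide
  have k6 : ∀ i : Fin 6, ¬ (SimpleGraph.cycleGraph 6).Adj (i + 1) (i + 3) := by decide
  exact hP _ _ _ _ x ((h _ _).2 (k1 i)) ((h _ _).2 (k2 i)) ((h _ _).2 (k3 i))
    (fun h' => k4 i ((h _ _).1 h')) (fun h' => k5 i ((h _ _).1 h')) (fun h' => k6 i ((h _ _).1 h'))

/-- two nonadjacent nonneighbours of `e` adjacent to vertices of `A₃` -/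
lemma pair3 (h4 : NoC4 G) (hP : NoP G) {a b c d e : V} (h : Good G a b c d e) {x y z : V}
    (hx : ¬ InK G a b c d e x) (hxe : ¬ G.Adj x e) (hz : TA G d e a b c z) (hzx : G.Adj z x)
    (hy : ¬ InK G a b c d e y) (hye : ¬ G.Adj y e) (hzy : G.Adj z y)
    (hne : x ≠ y) (hxy : ¬ G.Adj x y) :
    (TB G c d e a b x ∧ TB G c d e a b y) ∨ (TB G b c d e a x ∧ TB G b c d e a y) := by
  have hz' : TA G d c b a e z := ⟨hz.2.1, hz.1, hz.2.2.2.1, hz.2.2.1, hz.2.2.2.2⟩
  have fl : ∀ {a b c d e x : V}, TB G a b c d e x → TB G b a e d c x := fun h =>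
    ⟨h.2.1, h.1, h.2.2.2.2, h.2.2.2.1, h.2.2.1⟩
  rcases pair0 h4 hP h.flip (fun h' => hx h'.flip) hxe hz' hzx (fun h' => hy h'.flip) hye hz' hzy
    hne hxy with ⟨k, l⟩ | ⟨k, l⟩
  · exact Or.inl ⟨fl k, fl l⟩
  · exact Or.inr ⟨fl k, fl l⟩

lemma hole6a (h4 : NoC4 G) (hP : NoP G) {a b c d e : V} (h : Good G a b c d e)
    {p : Fin 6 → V} (hp : Cyc G 6 p) (hK : ∀ i, ¬ InK G a b c d e (p i))
    (n1 : ¬ G.Adj (p 1) e) (n2 : ¬ G.Adj (p 2) e) (n4 : ¬ G.Adj (p 4) e) (n5 : ¬ G.Adj (p 5) e)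
    (h0 : TA G a b c d e (p 0)) (h3 : TA G d e a b c (p 3)) : False := by
  have adj : ∀ i j, (SimpleGraph.cycleGraph 6).Adj i j → G.Adj (p i) (p j) := fun i j => (hp i j).2
  have nadj : ∀ i j, ¬ (SimpleGraph.cycleGraph 6).Adj i j → ¬ G.Adj (p i) (p j) :=
    fun i j hn h' => hn ((hp i j).1 h')
  rcases pair0 h4 hP h (hK 1) n1 h0 (adj 0 1 (by decide)) (hK 5) n5 h0 (adj 0 5 (by decide))
    (hp.inj6 (by decide)) (nadj 1 5 (by decide)) with ⟨k, l⟩ | ⟨k, l⟩ <;>
  rcases pair3 h4 hP h (hK 2) n2 h3 (adj 3 2 (by decide)) (hK 4) n4 (adj 3 4 (by decide))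
    (hp.inj6 (by decide)) (nadj 2 4 (by decide)) with ⟨k', l'⟩ | ⟨k', l'⟩
  · exact B0B2 h4 h.c5 k k' (adj 1 2 (by decide))
  · exact nadj 1 4 (by decide) (B0B1 hP h.c5 k l')
  · exact nadj 1 4 (by decide) (B0B1 hP h.c5.rot k l')
  · rcases h4 b (p 2) (p 3) (p 4) (fun h' => h.c5.be (h' ▸ h3.1)) (hp.inj6 (by decide)) k'.1.symm
      (adj 2 3 (by decide)) (adj 3 4 (by decide)) l'.1 with h' | h'
    · exact h3.2.2.2.1 h'.symm
    · exact nadj 2 4 (by decide) h'

lemma hole6 (h4 : NoC4 G) (hP : NoP G) {a b c d e : V} (h : Good G a b c d e)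
    {p : Fin 6 → V} (hp : Cyc G 6 p) (hK : ∀ i, ¬ InK G a b c d e (p i)) : False := by
  classical
  have hne : ∀ i, e ≠ p i := fun i h' => hK i (h' ▸ e_inK h.c5)
  have adj : ∀ i j, (SimpleGraph.cycleGraph 6).Adj i j → G.Adj (p i) (p j) := fun i j => (hp i j).2
  have nadj : ∀ i j, ¬ (SimpleGraph.cycleGraph 6).Adj i j → ¬ G.Adj (p i) (p j) :=
    fun i j hn h' => hn ((hp i j).1 h')
  rcases bool6a (fun i => decide (G.Adj e (p i)))
    (fun i h1 h2 => decide_eq_true (cyc6_gap h4 hp hne i (of_decide_eq_true h1)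
      (of_decide_eq_true h2)))
    (fun i => by simpa using cyc6_win hP hp e i) with ⟨i, s0, s1, s2⟩ | ⟨i, s0, s3, s1, s2, s4, s5⟩
  · have s0 := of_decide_eq_true s0
    have s1 := of_decide_eq_true s1
    have s2 := of_decide_eq_true s2
    have k1 : ∀ i : Fin 6, (SimpleGraph.cycleGraph 6).Adj i (i + 1) := by decide
    have k2 : ∀ i : Fin 6, (SimpleGraph.cycleGraph 6).Adj (i + 1) (i + 2) := by decide
    have k3 : ∀ i : Fin 6, ¬ (SimpleGraph.cycleGraph 6).Adj i (i + 2) := by decide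
    have k4 : ∀ i : Fin 6, i ≠ i + 2 := by decide
    exact three_e h4 hP h (hK _) (hK _) (hK _) s0.symm s1.symm s2.symm (adj _ _ (k1 i))
      (adj _ _ (k2 i)) (nadj _ _ (k3 i)) (hp.inj6 (k4 i))
  · have s0 := (of_decide_eq_true s0).symm
    have s3 := (of_decide_eq_true s3).symm
    have s1 : ¬ G.Adj (p (i + 1)) e := fun h' => of_decide_eq_false s1 h'.symm
    have s2 : ¬ G.Adj (p (i + 2)) e := fun h' => of_decide_eq_false s2 h'.symm
    have s4 : ¬ G.Adj (p (i + 4)) e := fun h' => of_decide_eq_false s4 h'.symm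
    have s5 : ¬ G.Adj (p (i + 5)) e := fun h' => of_decide_eq_false s5 h'.symm
    have j3 : ∀ i : Fin 6, ¬ (SimpleGraph.cycleGraph 6).Adj i (i + 3) := by decide
    have j4 : ∀ i : Fin 6, i ≠ i + 3 := by decide
    rcases nbr_e h4 hP h (hK _) s0 with m0 | m0 <;> rcases nbr_e h4 hP h (hK _) s3 with m3 | m3
    · exact nadj _ _ (j3 i) (A_clique h4 h.c5 m0 m3 (hp.inj6 (j4 i)))
    · have hq := hp.rot6 i
      refine hole6a h4 hP h hq (fun j => hK _) s1 s2 s4 s5 ?_ m3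
      simpa using m0
    · have hq := hp.rot6 (i + 3)
      have y1 : ∀ i : Fin 6, i + 3 + 1 = i + 4 := by decide
      have y2 : ∀ i : Fin 6, i + 3 + 2 = i + 5 := by decide
      have y4 : ∀ i : Fin 6, i + 3 + 4 = i + 1 := by decide
      have y5 : ∀ i : Fin 6, i + 3 + 5 = i + 2 := by decide
      have y3 : ∀ i : Fin 6, i + 3 + 3 = i := by decide
      have z1 := y1 i
      have z2 := y2 i
      have z4 := y4 i
      have z5 := y5 i
      have z3 := y3 i
      refine hole6a h4 hP h hq (fun j => hK _) ?_ ?_ ?_ ?_ ?_ ?_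
      · simpa only [z1] using s4
      · simpa only [z2] using s5
      · simpa only [z4] using s1
      · simpa only [z5] using s2
      · simpa using m3
      · simpa only [z3] using m0
    · exact nadj _ _ (j3 i) (A_clique h4 h.c5.rot.rot.rot m0 m3 (hp.inj6 (j4 i)))

lemma cyc_adj {n : ℕ} (hn : 4 ≤ n) (i j : Fin n) (hij : i.val < j.val) :
    (SimpleGraph.cycleGraph n).Adj i j ↔ j.val = i.val + 1 ∨ (i.val = 0 ∧ j.val + 1 = n) := by
  rw [SimpleGraph.cycleGraph_adj']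
  have h1 : (i - j).val = n - j.val + i.val := by
    rw [Fin.sub_def]
    simp only
    rw [Nat.mod_eq_of_lt]
    omega
  have h2 : (j - i).val = j.val - i.val := by
    rw [Fin.sub_def]
    simp only
    have : n - i.val + j.val = n + (j.val - i.val) := by omega
    rw [this, Nat.add_mod_left, Nat.mod_eq_of_lt]
    omega
  rw [h1, h2]
  omega

lemma hole7 (hP : NoP G) {n : ℕ} (hn : 7 ≤ n) {p : Fin n → V} (hp : Cyc G n p) : False := by
  have A : ∀ i j : ℕ, (hi : i < n) → (hj : j < n) → i < j →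
      (G.Adj (p ⟨i, hi⟩) (p ⟨j, hj⟩) ↔ j = i + 1 ∨ (i = 0 ∧ j + 1 = n)) := by
    intro i j hi hj hij
    rw [hp, cyc_adj (by omega) _ _ hij]
  rcases hP (p ⟨0, by omega⟩) (p ⟨1, by omega⟩) (p ⟨2, by omega⟩) (p ⟨3, by omega⟩)
    (p ⟨5, by omega⟩) ((A _ _ _ _ (by omega)).2 (by omega)) ((A _ _ _ _ (by omega)).2 (by omega))
    ((A _ _ _ _ (by omega)).2 (by omega)) (fun h' => by
      have := (A _ _ _ _ (by omega)).1 h'
      omega) (fun h' => by
      have := (A _ _ _ _ (by omega)).1 h'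
      omega) (fun h' => by
      have := (A _ _ _ _ (by omega)).1 h'
      omega) with h' | h' | h' | h'
  all_goals
    have := (A _ _ _ _ (by omega)).1 h'.symm
    omega

lemma cyc_of {S : Set V} {n : ℕ} (f : SimpleGraph.cycleGraph n ↪g G.induce S) :
    Cyc G n (fun i => (f i).1) := by
  intro i j
  exact f.map_rel_iff

lemma C5_of {p : Fin 5 → V} (h : Cyc G 5 p) : C5 G (p 0) (p 1) (p 2) (p 3) (p 4) :=
  ⟨(h _ _).2 (by decide), (h _ _).2 (by decide), (h _ _).2 (by decide), (h _ _).2 (by decide),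
    (h _ _).2 (by decide), fun h' => absurd ((h _ _).1 h') (by decide),
    fun h' => absurd ((h _ _).1 h') (by decide), fun h' => absurd ((h _ _).1 h') (by decide),
    fun h' => absurd ((h _ _).1 h') (by decide), fun h' => absurd ((h _ _).1 h') (by decide)⟩

/-- the case of a graph with an induced 5-cycle -/
lemma case5 (h4' : ¬ Nonempty (SimpleGraph.cycleGraph 4 ↪g G)) (h4 : NoC4 G) (hP : NoP G)
    {a b c d e : V} (h : C5 G a b c d e) : ∃ K : Set V, G.IsClique K ∧ IsChordal (G.induce Kᶜ) := by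
  obtain ⟨a, b, c, d, e, h⟩ := exists_good h4 hP h
  refine ⟨{x | InK G a b c d e x}, ?_, ?_⟩
  · intro x hx y hy hxy
    exact K_clique h4 h.c5 hx hy hxy
  · rintro n hn ⟨f⟩
    have hc := cyc_of f
    have hK : ∀ i, ¬ InK G a b c d e (f i).1 := fun i => (f i).2
    rcases Nat.lt_or_ge n 5 with h' | h'
    · have : n = 4 := by omega
      subst this
      exact h4' ⟨f.trans (SimpleGraph.Embedding.induce _)⟩
    rcases Nat.lt_or_ge n 6 with h'' | h''
    · have : n = 5 := by omega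
      subst this
      exact hole5 h4 hP h (C5_of hc) (hK _) (hK _) (hK _) (hK _) (hK _)
    rcases Nat.lt_or_ge n 7 with h''' | h'''
    · have : n = 6 := by omega
      subst this
      exact hole6 h4 hP h hc hK
    · exact hole7 hP h''' hc

/-- the class of `p 0` -/
def CA (G : SimpleGraph V) (p : Fin 6 → V) (i : Fin 6) (x : V) : Prop :=
  G.Adj x (p (i + 5)) ∧ G.Adj x (p (i + 1)) ∧ ¬ G.Adj x (p (i + 2)) ∧ ¬ G.Adj x (p (i + 3)) ∧
    ¬ G.Adj x (p (i + 4)) ∧ (x = p i ∨ G.Adj x (p i))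

lemma classify6 (h4 : NoC4 G) (hP : NoP G) (h5 : ∀ a b c d e : V, ¬ C5 G a b c d e)
    {p : Fin 6 → V} (hp : Cyc G 6 p) (x : V) : (∀ i, G.Adj x (p i)) ∨ ∃ i, CA G p i x := by
  classical
  by_cases hx : ∃ i, x = p i
  · obtain ⟨i, rfl⟩ := hx
    right
    refine ⟨i, ?_, ?_, ?_, ?_, ?_, Or.inl rfl⟩
    · rw [hp]
      revert i
      decide
    · rw [hp]
      revert i
      decide
    · rw [hp]
      revert i
      decide
    · rw [hp]
      revert i
      decide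
    · rw [hp]
      revert i
      decide
  push Not at hx
  have k1 : ∀ i : Fin 6, (SimpleGraph.cycleGraph 6).Adj i (i + 1) := by decide
  have k2 : ∀ i : Fin 6, (SimpleGraph.cycleGraph 6).Adj (i + 1) (i + 2) := by decide
  have k3 : ∀ i : Fin 6, (SimpleGraph.cycleGraph 6).Adj (i + 2) (i + 3) := by decide
  have k4 : ∀ i : Fin 6, ¬ (SimpleGraph.cycleGraph 6).Adj i (i + 2) := by decide
  have k5 : ∀ i : Fin 6, ¬ (SimpleGraph.cycleGraph 6).Adj i (i + 3) := by decide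
  have k6 : ∀ i : Fin 6, ¬ (SimpleGraph.cycleGraph 6).Adj (i + 1) (i + 3) := by decide
  have adj : ∀ i j, (SimpleGraph.cycleGraph 6).Adj i j → G.Adj (p i) (p j) := fun i j => (hp i j).2
  have nadj : ∀ i j, ¬ (SimpleGraph.cycleGraph 6).Adj i j → ¬ G.Adj (p i) (p j) :=
    fun i j hn h' => hn ((hp i j).1 h')
  rcases bool6b (fun i => decide (G.Adj x (p i)))
    (fun i h1 h2 => decide_eq_true (cyc6_gap h4 hp hx i (of_decide_eq_true h1)
      (of_decide_eq_true h2)))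
    (fun i => by simpa using cyc6_win hP hp x i)
    (fun i h1 h2 => by
      by_contra hcon
      push Not at hcon
      have n1 : ¬ G.Adj x (p (i + 1)) := fun h' => hcon.1 (decide_eq_true h')
      have n2 : ¬ G.Adj x (p (i + 2)) := fun h' => hcon.2 (decide_eq_true h')
      exact h5 x (p i) (p (i + 1)) (p (i + 2)) (p (i + 3)) ⟨of_decide_eq_true h1, adj _ _ (k1 i),
        adj _ _ (k2 i), adj _ _ (k3 i), (of_decide_eq_true h2).symm, n1, n2,
        nadj _ _ (k4 i), nadj _ _ (k5 i), nadj _ _ (k6 i)⟩) with h' | ⟨i, s5, s0, s1, s2, s3, s4⟩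
  · left
    intro i
    exact of_decide_eq_true (h' i)
  · right
    exact ⟨i, of_decide_eq_true s5, of_decide_eq_true s1, of_decide_eq_false s2,
      of_decide_eq_false s3, of_decide_eq_false s4, Or.inr (of_decide_eq_true s0)⟩

/-- the clique in the case of a graph without induced 5-cycles -/
def InL (G : SimpleGraph V) (p : Fin 6 → V) (x : V) : Prop := (∀ i, G.Adj x (p i)) ∨ CA G p 0 x

lemma case6 (h4' : ¬ Nonempty (SimpleGraph.cycleGraph 4 ↪g G)) (h4 : NoC4 G) (hP : NoP G)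
    (h5 : ∀ a b c d e : V, ¬ C5 G a b c d e) {p : Fin 6 → V} (hp : Cyc G 6 p) :
    ∃ K : Set V, G.IsClique K ∧ IsChordal (G.induce Kᶜ) := by
  have adj : ∀ i j, (SimpleGraph.cycleGraph 6).Adj i j → G.Adj (p i) (p j) := fun i j => (hp i j).2
  have nadj : ∀ i j, ¬ (SimpleGraph.cycleGraph 6).Adj i j → ¬ G.Adj (p i) (p j) :=
    fun i j hn h' => hn ((hp i j).1 h')
  have cl : ∀ {x y u v : V}, x ≠ y → u ≠ v → ¬ G.Adj u v → G.Adj x u → G.Adj x v → G.Adj y u →
      G.Adj y v → G.Adj x y := fun hxy huv nuv xu xv yu yv =>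
    (h4 _ _ _ _ hxy huv xu yu.symm yv xv.symm).resolve_right nuv
  refine ⟨{x | InL G p x}, ?_, ?_⟩
  · intro x hx y hy hxy
    have e5 : ∀ {x : V}, InL G p x → G.Adj x (p 5) ∧ G.Adj x (p 1) := by
      intro x hx
      rcases hx with h | h
      · exact ⟨h 5, h 1⟩
      · exact ⟨by simpa using h.1, by simpa using h.2.1⟩
    exact cl hxy (hp.inj6 (by decide)) (nadj 5 1 (by decide)) (e5 hx).1 (e5 hx).2 (e5 hy).1
      (e5 hy).2
  · rintro n hn ⟨f⟩
    have hc := cyc_of f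
    have hK : ∀ i, ¬ InL G p (f i).1 := fun i => (f i).2
    rcases Nat.lt_or_ge n 5 with h' | h'
    · have : n = 4 := by omega
      subst this
      exact h4' ⟨f.trans (SimpleGraph.Embedding.induce _)⟩
    rcases Nat.lt_or_ge n 6 with h'' | h''
    · have : n = 5 := by omega
      subst this
      exact h5 _ _ _ _ _ (C5_of hc)
    rcases Nat.lt_or_ge n 7 with h''' | h'''
    · have : n = 6 := by omega
      subst this
      set q : Fin 6 → V := fun i => (f i).1 with hq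
      have h0L : InL G p (p 0) := by
        right
        refine ⟨adj _ _ (by decide), adj _ _ (by decide), nadj _ _ (by decide),
          nadj _ _ (by decide), nadj _ _ (by decide), Or.inl rfl⟩
      have hne : ∀ i, p 0 ≠ q i := fun i h' => hK i (by
        have : (f i).1 = p 0 := h'.symm
        rw [this]
        exact h0L)
      -- neighbours of `p 0` outside the clique
      have nb : ∀ x, ¬ InL G p x → G.Adj x (p 0) → CA G p 1 x ∨ CA G p 5 x := by
        intro x hx hx0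
        rcases classify6 h4 hP h5 hp x with h | ⟨i, h⟩
        · exact absurd (Or.inl h) hx
        · have six : ∀ i : Fin 6, i = 0 ∨ i = 1 ∨ i = 2 ∨ i = 3 ∨ i = 4 ∨ i = 5 := by decide
          rcases six i with rfl | rfl | rfl | rfl | rfl | rfl
          · exact absurd (Or.inr h) hx
          · exact Or.inl h
          · exact absurd hx0 h.2.2.2.2.1
          · exact absurd hx0 h.2.2.2.1
          · exact absurd hx0 h.2.2.1
          · exact Or.inr h
      have big : ∀ x y z : V, ¬ InL G p x → ¬ InL G p y → ¬ InL G p z → G.Adj x (p 0) →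
          G.Adj y (p 0) → G.Adj z (p 0) → G.Adj x y → G.Adj y z → ¬ G.Adj x z → x ≠ z → False := by
        intro x y z hx hy hz hx0 hy0 hz0 hxy hyz hxz hne
        refine T3 (P := CA G p 1) (Q := CA G p 5) ?_ ?_ ?_ (nb x hx hx0) (nb y hy hy0) (nb z hz hz0)
          hxy hyz hxz hne
        · intro x y hx hy hxy
          exact cl hxy (hp.inj6 (by decide)) (nadj (1 + 5) (1 + 1) (by decide)) hx.1 hx.2.1 hy.1
            hy.2.1
        · intro x y hx hy hxy
          exact cl hxy (hp.inj6 (by decide)) (nadj (5 + 5) (5 + 1) (by decide)) hx.1 hx.2.1 hy.1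
            hy.2.1
        · intro x y hx hy hxy
          have hy4 : G.Adj y (p 4) := hy.1
          have hx2 : G.Adj x (p 2) := hx.2.1
          have hx3 : ¬ G.Adj x (p 3) := hx.2.2.1
          have hx4 : ¬ G.Adj x (p 4) := hx.2.2.2.1
          have hy2 : ¬ G.Adj y (p 2) := hy.2.2.2.1
          have hy3 : ¬ G.Adj y (p 3) := hy.2.2.2.2.1
          exact h5 x (p 2) (p 3) (p 4) y ⟨hx2, adj _ _ (by decide), adj _ _ (by decide), hy4.symm,
            hxy.symm, hx3, hx4, nadj _ _ (by decide), fun h' => hy2 h'.symm, fun h' => hy3 h'.symm⟩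
      have adjq : ∀ i j, (SimpleGraph.cycleGraph 6).Adj i j → G.Adj (q i) (q j) :=
        fun i j => (hc i j).2
      have nadjq : ∀ i j, ¬ (SimpleGraph.cycleGraph 6).Adj i j → ¬ G.Adj (q i) (q j) :=
        fun i j hn h' => hn ((hc i j).1 h')
      rcases classify6 h4 hP h5 hc (p 0) with h | ⟨i, h⟩
      · exact big (q 0) (q 1) (q 2) (hK _) (hK _) (hK _) (h _).symm (h _).symm (h _).symm
          (adjq _ _ (by decide)) (adjq _ _ (by decide)) (nadjq _ _ (by decide))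
          (hc.inj6 (by decide))
      · have k1 : ∀ i : Fin 6, (SimpleGraph.cycleGraph 6).Adj (i + 5) i := by decide
        have k2 : ∀ i : Fin 6, (SimpleGraph.cycleGraph 6).Adj i (i + 1) := by decide
        have k3 : ∀ i : Fin 6, ¬ (SimpleGraph.cycleGraph 6).Adj (i + 5) (i + 1) := by decide
        have k4 : ∀ i : Fin 6, i + 5 ≠ i + 1 := by decide
        exact big (q (i + 5)) (q i) (q (i + 1)) (hK _) (hK _) (hK _) h.1.symm
          (h.2.2.2.2.2.resolve_left (hne i)).symm h.2.1.symm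
          (adjq _ _ (k1 i)) (adjq _ _ (k2 i)) (nadjq _ _ (k3 i))
          (hc.inj6 (k4 i))
    · exact hole7 hP h''' hc

/-- Every finite `{P₄ + P₁, C₄}`-free graph has a clique whose deletion leaves a chordal graph. -/
theorem result (V : Type) [Finite V] (G : SimpleGraph V) (hP : ¬ Nonempty (P4P1 ↪g G))
    (hC : ¬ Nonempty (SimpleGraph.cycleGraph 4 ↪g G)) :
    ∃ K : Set V, G.IsClique K ∧ IsChordal (G.induce Kᶜ) := by
  have h4 := noC4_of hC
  have hP' := noP_of hP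
  by_cases h5 : ∃ a b c d e : V, C5 G a b c d e
  · obtain ⟨a, b, c, d, e, h⟩ := h5
    exact case5 hC h4 hP' h
  push Not at h5
  by_cases h6 : ∃ p : Fin 6 → V, Cyc G 6 p
  · obtain ⟨p, hp⟩ := h6
    exact case6 hC h4 hP' h5 hp
  push Not at h6
  refine ⟨∅, by simp, ?_⟩
  rintro n hn ⟨f⟩
  have hc := cyc_of f
  rcases Nat.lt_or_ge n 5 with h' | h'
  · have : n = 4 := by omega
    subst this
    exact hC ⟨f.trans (SimpleGraph.Embedding.induce _)⟩
  rcases Nat.lt_or_ge n 6 with h'' | h''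
  · have : n = 5 := by omega
    subst this
    exact h5 _ _ _ _ _ (C5_of hc)
  rcases Nat.lt_or_ge n 7 with h''' | h'''
  · have : n = 6 := by omega
    subst this
    exact h6 _ hc
  · exact hole7 hP' h''' hc

end

end Pool.Agent.Results.MP_e9ad42_co.DeletionClique
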